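import Mathlib

set_option autoImplicit false

/-!
# Stratified nilpotent Lie groups, Lipschitz chains and filling functions: definitions
-/

namespace Pool.Agent.H737Z.Fill

open MeasureTheory
open scoped ENNReal ContDiff

section group

variable {E : Type} [NormedAddCommGroup E] [InnerProductSpace ℝ E]

/-- The left-invariant vector field with value `u` at the identity `0`. -/
noncomputable def leftField (mul : E → E → E) (u : E) : E → E :=
  fun x => fderiv ℝ (mul x) 0 u

/-- The Lie bracket on the tangent space at the identity: the bracket of left-invariant vector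
fields, evaluated at the identity. -/
noncomputable def bracket (mul : E → E → E) (u v : E) : E :=
  VectorField.lieBracket ℝ (leftField mul u) (leftField mul v) 0

end group

/-- A stratified nilpotent Lie group, in global coordinates on its Lie algebra `E`
(a homogeneous Carnot group): a Lie group structure on `E` with identity `0`, a stratification
`E = V 1 ⊕ ⋯ ⊕ V s` of the Lie algebra, and the dilations (multiplication by `t ^ i` on `V i`) are
group automorphisms. -/
structure Stratified (E : Type) [NormedAddCommGroup E] [InnerProductSpace ℝ E] where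
  mul : E → E → E
  inv : E → E
  mul_assoc : ∀ x y z, mul (mul x y) z = mul x (mul y z)
  zero_mul : ∀ x, mul 0 x = x
  mul_zero : ∀ x, mul x 0 = x
  inv_mul : ∀ x, mul (inv x) x = 0
  smooth_mul : ContDiff ℝ ∞ fun p : E × E => mul p.1 p.2
  smooth_inv : ContDiff ℝ ∞ inv
  s : ℕ
  V : ℕ → Submodule ℝ E
  internal : DirectSum.IsInternal fun i : Fin s => V (i + 1)
  bracket_succ : ∀ i, 1 ≤ i → i < s →
    Submodule.span ℝ {w | ∃ u ∈ V 1, ∃ v ∈ V i, w = bracket mul u v} = V (i + 1)
  bracket_last : ∀ u ∈ V 1, ∀ v ∈ V s, bracket mul u v = 0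
  last_ne : V s ≠ ⊥
  dil : ℝ → E →ₗ[ℝ] E
  dil_apply : ∀ t i, 1 ≤ i → i ≤ s → ∀ v ∈ V i, dil t v = t ^ i • v
  dil_mul : ∀ t, 0 < t → ∀ x y, dil t (mul x y) = mul (dil t x) (dil t y)

/-- The `i`-th face inclusion of standard simplices: insert the coordinate `0` at place `i`. -/
def faceMap {k : ℕ} (i : Fin (k + 2)) (y : stdSimplex ℝ (Fin (k + 1))) :
    stdSimplex ℝ (Fin (k + 2)) :=
  ⟨Fin.insertNth i 0 y.1, by
    refine ⟨fun j => ?_, ?_⟩
    · refine Fin.succAboveCases i ?_ (fun l => ?_) j
      · simp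
      · simpa using y.2.1 l
    · rw [Fin.sum_univ_succAbove _ i]
      simpa using y.2.2⟩

theorem lipschitz_faceMap {k : ℕ} (i : Fin (k + 2)) : LipschitzWith 1 (faceMap i) := by
  refine LipschitzWith.mk_one fun y z => ?_
  rw [Subtype.dist_eq, Subtype.dist_eq]
  refine (dist_pi_le_iff dist_nonneg).mpr fun j => ?_
  refine Fin.succAboveCases i ?_ (fun l => ?_) j
  · simp [faceMap]
  · simpa [faceMap] using dist_le_pi_dist y.1 z.1 l

/-- The open simplex `{x : x i > 0, ∑ x i < 1}` of `ℝ ^ k`. -/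
def corner (k : ℕ) : Set (Fin k → ℝ) := {x | (∀ i, 0 < x i) ∧ ∑ i, x i < 1}

/-- Barycentric coordinates `(1 - ∑ x i, x 1, …, x k)` of a point of `ℝ ^ k`. -/
def bary {k : ℕ} (x : Fin k → ℝ) : Fin (k + 1) → ℝ := Fin.cons (1 - ∑ i, x i) x

section chains

variable (E : Type) [NormedAddCommGroup E]

/-- Lipschitz singular `k`-simplices. -/
def LipSimplex (k : ℕ) : Type :=
  {σ : stdSimplex ℝ (Fin (k + 1)) → E // ∃ L, LipschitzWith L σ}

/-- Lipschitz `k`-chains with integer coefficients. -/
abbrev Chain (k : ℕ) : Type := LipSimplex E k →₀ ℤ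

variable {E}

/-- The `i`-th face of a Lipschitz simplex. -/
def LipSimplex.face {k : ℕ} (σ : LipSimplex E (k + 1)) (i : Fin (k + 2)) : LipSimplex E k :=
  ⟨σ.1 ∘ faceMap i, by
    obtain ⟨L, hL⟩ := σ.2
    exact ⟨_, hL.comp (lipschitz_faceMap i)⟩⟩

/-- The boundary of a chain. -/
noncomputable def bd {k : ℕ} (b : Chain E (k + 1)) : Chain E k :=
  b.sum fun σ m => ∑ i : Fin (k + 2), Finsupp.single (σ.face i) ((-1) ^ (i : ℕ) * m)

/-- Cycles. -/
def IsCycle : {k : ℕ} → Chain E k → Prop
  | 0, _ => True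
  | _ + 1, a => bd a = 0

open Classical in
/-- A simplex as a function on `ℝ ^ k` (only its values on the simplex matter). -/
noncomputable def LipSimplex.param {k : ℕ} (σ : LipSimplex E k) (x : Fin k → ℝ) : E :=
  if h : bary x ∈ stdSimplex ℝ (Fin (k + 1)) then σ.1 ⟨bary x, h⟩ else 0

variable [InnerProductSpace ℝ E]

/-- The `k`-dimensional Jacobian (square root of the Gram determinant) of a linear map. -/
noncomputable def jac {k : ℕ} (A : (Fin k → ℝ) →L[ℝ] E) : ℝ :=
  Real.sqrt (Matrix.gram ℝ fun i => A (Pi.single i 1)).det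

variable (G : Stratified E)

/-- The derivative of `σ` at `x`, translated back to the identity by left multiplication. -/
noncomputable def vel {k : ℕ} (σ : LipSimplex E k) (x : Fin k → ℝ) : (Fin k → ℝ) →L[ℝ] E :=
  fderiv ℝ (fun x' => G.mul (G.inv (σ.param x)) (σ.param x')) x

/-- The `k`-volume of a Lipschitz simplex for the left-invariant Riemannian metric which is the
inner product of `E` at the identity. -/
noncomputable def vol {k : ℕ} (σ : LipSimplex E k) : ℝ≥0∞ :=
  ∫⁻ x in corner k, ENNReal.ofReal (jac (vel G σ x))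

/-- The mass of a chain. -/
noncomputable def mass {k : ℕ} (a : Chain E k) : ℝ≥0∞ :=
  a.sum fun σ m => (m.natAbs : ℝ≥0∞) * vol G σ

/-- The filling function `FV ^ (k + 1)` in dimension `k`. -/
noncomputable def FV (k : ℕ) (r : ℝ) : ℝ≥0∞ :=
  ⨆ (a : Chain E k) (_ : IsCycle a) (_ : mass G a ≤ ENNReal.ofReal r),
    ⨅ (b : Chain E (k + 1)) (_ : bd b = a), mass G b

end chains

/-- `f ≼ g`: there is `C > 0` with `f r ≤ C * g (C * r + C) + C * r + C` for all `r ≥ 0`. -/
def Dominated (f : ℝ → ℝ≥0∞) (g : ℝ → ℝ) : Prop :=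
  ∃ C : ℝ, 0 < C ∧ ∀ r, 0 ≤ r → f r ≤ ENNReal.ofReal (C * g (C * r + C) + C * r + C)

end Pool.Agent.H737Z.Fill
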