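import Pool.Agent.H737Z.Fill.Defs

set_option autoImplicit false

/-!
# Statements of the independent steps
-/

namespace Pool.Agent.H737Z.Fill

open MeasureTheory
open scoped ENNReal ContDiff

/-- Facts on a stratified group: the dilations `δ`, the adjoint action `Ad`, and a global chart
`Ξ` (inverse `Ψ`) in which left translations are affine. -/
structure Facts {E : Type} [NormedAddCommGroup E] [InnerProductSpace ℝ E] (G : Stratified E)
    (δ : ℝ → E →L[ℝ] E) (Ad : E → E →L[ℝ] E) (Ξ Ψ : E → E) : Prop where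
  mul_inv : ∀ x, G.mul x (G.inv x) = 0
  inv_zero : G.inv 0 = 0
  inv_inv : ∀ x, G.inv (G.inv x) = x
  inv_rev : ∀ x y, G.inv (G.mul x y) = G.mul (G.inv y) (G.inv x)
  inv_cancel : ∀ x y, G.mul (G.inv x) (G.mul x y) = y
  cancel_inv : ∀ x y, G.mul x (G.mul (G.inv x) y) = y
  d_mul : HasStrictFDerivAt (fun p : E × E => G.mul p.1 p.2)
    (ContinuousLinearMap.fst ℝ E E + ContinuousLinearMap.snd ℝ E E) (0, 0)
  δ_eq : ∀ t x, δ t x = G.dil t x
  δ_one : ∀ x, δ 1 x = x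
  δ_δ : ∀ t u x, δ t (δ u x) = δ (t * u) x
  δ_mul : ∀ t, 0 < t → ∀ x y, δ t (G.mul x y) = G.mul (δ t x) (δ t y)
  δ_inv : ∀ t, 0 < t → ∀ x, δ t (G.inv x) = G.inv (δ t x)
  δ_norm : ∃ C : ℝ, 0 < C ∧ ∀ t, 0 < t → t ≤ 1 → ‖δ t‖ ≤ C * t
  detL : ∀ x y, (fderiv ℝ (G.mul x) y).det = 1
  detR : ∀ x y, (fderiv ℝ (fun z => G.mul z x) y).det = 1
  Ad_deriv : ∀ h, HasStrictFDerivAt (fun y => G.mul (G.mul h y) (G.inv h)) (Ad h) 0
  Ad_smooth : ContDiff ℝ ∞ Ad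
  Ad_det : ∀ h, (Ad h).det = 1
  Ad_zero : ∀ w, Ad 0 w = w
  Ad_bracket : ∀ u w, fderiv ℝ Ad 0 u w = bracket G.mul u w
  Ξ_smooth : ContDiff ℝ ∞ Ξ
  Ψ_smooth : ContDiff ℝ ∞ Ψ
  ΨΞ : ∀ x, Ψ (Ξ x) = x
  ΞΨ : ∀ x, Ξ (Ψ x) = x
  Ξ_zero : Ξ 0 = 0
  Ξ_mul : ∀ x y, Ξ (G.mul x y) = Ξ x + Ad x (Ξ y)
  Ξ_δ : ∀ t, 0 < t → ∀ x, Ξ (δ t x) = δ t (Ξ x)
  Ξ_det : ∀ x, (fderiv ℝ Ξ x).det = (fderiv ℝ Ξ 0).det
  Ξ_det_ne : (fderiv ℝ Ξ 0).det ≠ 0
  horiz : ∀ v ∈ G.V 1, ∃ y : ℝ → E, ContDiff ℝ ∞ y ∧ y 0 = 0 ∧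
    (∀ s, 0 < s → ∀ t, δ s (y t) = y (s * t)) ∧
    ∀ t₀, HasDerivAt (fun t => G.mul (G.inv (y t₀)) (y t)) v t₀

/-- The determinant of the derivative is a null Lagrangian for Lipschitz maps. -/
def S_null : Prop := ∀ (F : Type) [NormedAddCommGroup F] [NormedSpace ℝ F]
  [FiniteDimensional ℝ F] [MeasurableSpace F] [BorelSpace F] (μ : Measure F)
  [μ.IsAddHaarMeasure] (f g : F → F) (K : NNReal), LipschitzWith K f → LipschitzWith K g →
  ∀ T : Set F, MeasurableSet T → μ T ≠ ⊤ → (∀ x, x ∉ T → f x = g x) →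
  ∫ x in T, (fderiv ℝ f x).det ∂μ = ∫ x in T, (fderiv ℝ g x).det ∂μ

/-- Stokes' theorem in top degree for Lipschitz simplices. -/
def S_stokes : Prop := ∀ n : ℕ, ∃ J : LipSimplex (Fin (n + 1) → ℝ) n → ℝ,
  ∀ σ : LipSimplex (Fin (n + 1) → ℝ) (n + 1),
    ∫ x in corner (n + 1), (fderiv ℝ σ.param x).det =
      ∑ i : Fin (n + 2), (-1) ^ (i : ℕ) * J (σ.face i)

/-- The volume cocycle is not a limit of coboundaries of locally bounded cochains. -/
def S_kernel : Prop := ∀ (E : Type) [NormedAddCommGroup E] [InnerProductSpace ℝ E]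
  [FiniteDimensional ℝ E] (G : Stratified E) (δ : ℝ → E →L[ℝ] E) (Ad : E → E →L[ℝ] E)
  (Ξ Ψ : E → E), Facts G δ Ad Ξ Ψ → ∀ (n : ℕ) (e : Module.Basis (Fin (n + 1)) ℝ E),
  ∃ (K : Set E) (C : ℝ), IsCompact K ∧ ∀ (b : (Fin (n + 1) → E) → ℝ) (ε M : ℝ),
    (∀ (x : E) (d : Fin (n + 2) → E), (∀ j, G.mul (G.inv x) (d j) ∈ K) →
      |e.det (fun j => Ξ (d j.succ) - Ξ (d 0)) -
        ∑ i : Fin (n + 2), (-1) ^ (i : ℕ) * b (fun j => d (i.succAbove j))| ≤ ε) →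
    (∀ (x : E) (d : Fin (n + 1) → E), (∀ j, G.mul (G.inv x) (d j) ∈ K) → |b d| ≤ M) →
    1 ≤ C * ε

/-- The `0`-simplex at a point. -/
def pt {E : Type} [NormedAddCommGroup E] (x : E) : LipSimplex E 0 :=
  ⟨fun _ => x, 0, LipschitzWith.const x⟩

/-- Dilated elements have linearly growing length (Chow's theorem). -/
def S_chow : Prop := ∀ (E : Type) [NormedAddCommGroup E] [InnerProductSpace ℝ E]
  [FiniteDimensional ℝ E] (G : Stratified E) (δ : ℝ → E →L[ℝ] E) (Ad : E → E →L[ℝ] E)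
  (Ξ Ψ : E → E), Facts G δ Ad Ξ Ψ → ∀ K : Set E, IsCompact K →
  ∃ C : ℝ, 0 ≤ C ∧ ∀ s : ℝ, 1 ≤ s → ∀ x : E, ∀ k ∈ K, ∃ γ : Chain E 1,
    bd γ = Finsupp.single (pt (G.mul x (δ s k))) 1 - Finsupp.single (pt x) 1 ∧
    mass G γ ≤ ENNReal.ofReal (C * s)

section basic

variable {E : Type} [NormedAddCommGroup E]

theorem bd_zero {k : ℕ} : bd (0 : Chain E (k + 1)) = 0 := by simp [bd]

theorem bd_add {k : ℕ} (a b : Chain E (k + 1)) : bd (a + b) = bd a + bd b := by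
  unfold bd
  refine Finsupp.sum_add_index' (fun σ => by simp) (fun σ m m' => ?_)
  simp [mul_add, Finset.sum_add_distrib]

theorem bd_single {k : ℕ} (σ : LipSimplex E (k + 1)) (m : ℤ) :
    bd (Finsupp.single σ m) =
      ∑ i : Fin (k + 2), Finsupp.single (σ.face i) ((-1) ^ (i : ℕ) * m) := by
  unfold bd
  exact Finsupp.sum_single_index (by simp)

/-- The boundary as an additive homomorphism. -/
noncomputable def bdHom (k : ℕ) : Chain E (k + 1) →+ Chain E k where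
  toFun := bd
  map_zero' := bd_zero
  map_add' := bd_add

theorem bd_neg {k : ℕ} (a : Chain E (k + 1)) : bd (-a) = -bd a := (bdHom k).map_neg a

theorem bd_sub {k : ℕ} (a b : Chain E (k + 1)) : bd (a - b) = bd a - bd b :=
  (bdHom k).map_sub a b

variable [InnerProductSpace ℝ E] (G : Stratified E)

theorem mass_zero {k : ℕ} : mass G (0 : Chain E k) = 0 := by simp [mass]

theorem mass_single {k : ℕ} (σ : LipSimplex E k) (m : ℤ) :
    mass G (Finsupp.single σ m) = (m.natAbs : ℝ≥0∞) * vol G σ := by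
  unfold mass
  exact Finsupp.sum_single_index (by simp)

theorem mass_neg {k : ℕ} (a : Chain E k) : mass G (-a) = mass G a := by
  simp [mass, Finsupp.sum]

theorem mass_add_le {k : ℕ} (a b : Chain E k) : mass G (a + b) ≤ mass G a + mass G b := by
  classical
  have h : ∀ c : Chain E k, c.support ⊆ a.support ∪ b.support →
      mass G c = ∑ σ ∈ a.support ∪ b.support, ((c σ).natAbs : ℝ≥0∞) * vol G σ := by
    intro c hc
    unfold mass
    exact Finsupp.sum_of_support_subset _ hc _ (by simp)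
  rw [h (a + b) Finsupp.support_add, h a Finset.subset_union_left,
    h b Finset.subset_union_right, ← Finset.sum_add_distrib]
  refine Finset.sum_le_sum fun σ _ => ?_
  rw [← add_mul]
  gcongr
  exact_mod_cast Int.natAbs_add_le (a σ) (b σ)

theorem mass_sub_le {k : ℕ} (a b : Chain E k) : mass G (a - b) ≤ mass G a + mass G b := by
  rw [sub_eq_add_neg, ← mass_neg G b]
  exact mass_add_le G a (-b)

end basic

end Pool.Agent.H737Z.Fill
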